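import Mathlib

/-!
# Eight points in general position in space are separated by three planes

The general position hypothesis is that every plane contains at most three of the points.

Proof.  A generic direction gives a plane with four points `A` on one side and four points
`B` on the other.  Rotating a plane about the line through two points `a₁, a₂` of `A` one
finds a plane through `a₁, a₂` and a point of `B` having a point of `B` strictly on each
side; small perturbations give a plane halving both `A` and `B`, with two freely chosen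
points of `A` on different sides.  The same holds with `A` and `B` exchanged, and a short
combinatorial argument selects two halving planes which, together with the first plane,
separate all the points.
-/

namespace Pool.Agent.Results.MP_a0a64f_co.EightPointsSeparated

/-- Real three-space. -/
abbrev E3 := EuclideanSpace ℝ (Fin 3)

/-- value at `x` of the affine function with coefficients `f` -/
def ev (f : Fin 4 → ℝ) (x : E3) : ℝ := f 0 + f 1 * x 0 + f 2 * x 1 + f 3 * x 2

/-- coefficients of the affine function `x ↦ det (a, b, c, x)` -/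
def Dv (a b c : E3) : Fin 4 → ℝ :=
  ![-(a 0 * (b 1 * c 2 - b 2 * c 1) - a 1 * (b 0 * c 2 - b 2 * c 0) + a 2 * (b 0 * c 1 - b 1 * c 0)),
    (b 1 * c 2 - b 2 * c 1) - (a 1 * c 2 - a 2 * c 1) + (a 1 * b 2 - a 2 * b 1),
    -((b 0 * c 2 - b 2 * c 0) - (a 0 * c 2 - a 2 * c 0) + (a 0 * b 2 - a 2 * b 0)),
    (b 0 * c 1 - b 1 * c 0) - (a 0 * c 1 - a 1 * c 0) + (a 0 * b 1 - a 1 * b 0)]

/-- the affine determinant of four points -/
def D (a b c x : E3) : ℝ := ev (Dv a b c) x

/-- the matrix of four points -/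
def Mt (a b c x : E3) : Matrix (Fin 4) (Fin 4) ℝ :=
  !![1, a 0, a 1, a 2; 1, b 0, b 1, b 2; 1, c 0, c 1, c 2; 1, x 0, x 1, x 2]

lemma D_det (a b c x : E3) : D a b c x = Matrix.det (Mt a b c x) := by
  simp [D, ev, Dv, Mt, Matrix.det_succ_row_zero, Fin.sum_univ_succ, Fin.succAbove]
  ring

lemma D_self1 (a b c : E3) : D a b c a = 0 := by simp [D, ev, Dv]; ring
lemma D_self2 (a b c : E3) : D a b c b = 0 := by simp [D, ev, Dv]; ring
lemma D_self3 (a b c : E3) : D a b c c = 0 := by simp [D, ev, Dv]; ring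
lemma D_anti (a b c x : E3) : D a b c x = - D a b x c := by simp [D, ev, Dv]; ring

lemma ev_add (f h : Fin 4 → ℝ) (t : ℝ) (x : E3) :
    ev (fun i => f i + t * h i) x = ev f x + t * ev h x := by
  simp [ev]; ring

lemma Mt_mulVec (a b c x : E3) (v : Fin 4 → ℝ) :
    (Mt a b c x).mulVec v = ![ev v a, ev v b, ev v c, ev v x] := by
  ext i
  fin_cases i <;> simp [Mt, Matrix.mulVec, dotProduct, Fin.sum_univ_succ, ev] <;> ring

lemma interp (a b c x : E3) (h : D a b c x ≠ 0) (s t u : ℝ) :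
    ∃ f : Fin 4 → ℝ, ev f a = s ∧ ev f b = t ∧ ev f c = u := by
  rw [D_det] at h
  have hu : IsUnit (Mt a b c x) := by
    rw [Matrix.isUnit_iff_isUnit_det]
    exact isUnit_iff_ne_zero.mpr h
  obtain ⟨f, hf⟩ := (Matrix.mulVec_surjective_iff_isUnit.mpr hu) ![s, t, u, 0]
  rw [Mt_mulVec] at hf
  refine ⟨f, ?_, ?_, ?_⟩
  · simpa using congrFun hf 0
  · simpa using congrFun hf 1
  · simpa using congrFun hf 2

lemma inner_eq (n x : E3) : inner ℝ n x = n 0 * x 0 + n 1 * x 1 + n 2 * x 2 := by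
  simp [PiLp.inner_apply, Fin.sum_univ_succ]
  ring

/-- normal vector of the affine function `f` -/
def nv (f : Fin 4 → ℝ) : E3 := !₂[f 1, f 2, f 3]

lemma inner_nv (f : Fin 4 → ℝ) (x : E3) : inner ℝ (nv f) x = ev f x - f 0 := by
  rw [inner_eq]
  simp [nv, ev]
  ring

lemma D_ne (P : Finset E3)
    (hP : ∀ n : E3, n ≠ 0 → ∀ c : ℝ, (P.filter (fun x => inner ℝ n x = c)).card ≤ 3)
    {x y z w : E3} (hx : x ∈ P) (hy : y ∈ P) (hz : z ∈ P) (hw : w ∈ P)
    (hxy : x ≠ y) (hxz : x ≠ z) (hxw : x ≠ w) (hyz : y ≠ z) (hyw : y ≠ w) (hzw : z ≠ w) :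
    D x y z w ≠ 0 := by
  intro h
  rw [D_det] at h
  obtain ⟨v, hv0, hv⟩ := Matrix.exists_mulVec_eq_zero_iff.mpr h
  rw [Mt_mulVec] at hv
  have e1 : ev v x = 0 := by simpa using congrFun hv 0
  have e2 : ev v y = 0 := by simpa using congrFun hv 1
  have e3 : ev v z = 0 := by simpa using congrFun hv 2
  have e4 : ev v w = 0 := by simpa using congrFun hv 3
  have hn : nv v ≠ 0 := by
    intro hn
    apply hv0
    have h1 : v 1 = 0 := by simpa [nv] using congrArg (fun q : E3 => q 0) hn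
    have h2 : v 2 = 0 := by simpa [nv] using congrArg (fun q : E3 => q 1) hn
    have h3 : v 3 = 0 := by simpa [nv] using congrArg (fun q : E3 => q 2) hn
    have h0 : v 0 = 0 := by
      have := e1
      simp only [ev, h1, h2, h3] at this
      linarith
    ext i
    fin_cases i <;> simp [h0, h1, h2, h3]
  have hc := hP (nv v) hn (- v 0)
  have hsub : ({x, y, z, w} : Finset E3) ⊆ P.filter (fun q => inner ℝ (nv v) q = - v 0) := by
    intro q hq
    simp only [Finset.mem_insert, Finset.mem_singleton] at hq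
    rw [Finset.mem_filter, inner_nv]
    rcases hq with rfl | rfl | rfl | rfl
    · exact ⟨hx, by linarith⟩
    · exact ⟨hy, by linarith⟩
    · exact ⟨hz, by linarith⟩
    · exact ⟨hw, by linarith⟩
  have h4 : ({x, y, z, w} : Finset E3).card = 4 := by
    rw [Finset.card_insert_of_notMem, Finset.card_insert_of_notMem,
      Finset.card_insert_of_notMem, Finset.card_singleton]
    · simpa using hzw
    · simp [hyz, hyw]
    · simp [hxy, hxz, hxw]
  have := Finset.card_le_card hsub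
  omega

lemma perturb (S : Finset E3) (g h : Fin 4 → ℝ) (hg : ∀ p ∈ S, ev g p ≠ 0) :
    ∃ e : ℝ, 0 < e ∧ ∀ p ∈ S, 0 < ev g p * (ev g p + e * ev h p) := by
  have h1 : ∀ p ∈ S, ∀ᶠ e : ℝ in nhdsWithin 0 (Set.Ioi 0),
      0 < ev g p * (ev g p + e * ev h p) := by
    intro p hp
    have hc : Continuous (fun e : ℝ => ev g p * (ev g p + e * ev h p)) := by fun_prop
    have h0 : 0 < ev g p * (ev g p + (0 : ℝ) * ev h p) := by
      have := mul_self_pos.mpr (hg p hp)
      simpa using this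
    have := (hc.continuousAt (x := (0 : ℝ))).eventually (lt_mem_nhds h0)
    exact this.filter_mono nhdsWithin_le_nhds
  have h2 : ∀ᶠ e : ℝ in nhdsWithin 0 (Set.Ioi 0), ∀ p ∈ S,
      0 < ev g p * (ev g p + e * ev h p) := (Filter.eventually_all_finset S).mpr h1
  have h3 : ∀ᶠ e : ℝ in nhdsWithin 0 (Set.Ioi 0), e ∈ Set.Ioi (0 : ℝ) :=
    eventually_mem_nhdsWithin
  obtain ⟨e, he, he'⟩ := (h2.and h3).exists
  exact ⟨e, he', he⟩

lemma key (x y z w : E3) (hw : D x y z w ≠ 0) (S : Finset E3)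
    (hS : ∀ p ∈ S, D x y z p ≠ 0) (s t u : ℝ) (hs : s ≠ 0) (ht : t ≠ 0) (hu : u ≠ 0) :
    ∃ f : Fin 4 → ℝ, 0 < ev f x * s ∧ 0 < ev f y * t ∧ 0 < ev f z * u ∧
      ∀ p ∈ S, 0 < D x y z p * ev f p := by
  obtain ⟨h, h1, h2, h3⟩ := interp x y z w hw s t u
  obtain ⟨e, he, hp⟩ := perturb S (Dv x y z) h hS
  refine ⟨fun i => Dv x y z i + e * h i, ?_, ?_, ?_, ?_⟩
  · have := D_self1 x y z
    rw [D] at this
    rw [ev_add, this, h1]
    have := mul_pos he (mul_self_pos.mpr hs)
    nlinarith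
  · have := D_self2 x y z
    rw [D] at this
    rw [ev_add, this, h2]
    have := mul_pos he (mul_self_pos.mpr ht)
    nlinarith
  · have := D_self3 x y z
    rw [D] at this
    rw [ev_add, this, h3]
    have := mul_pos he (mul_self_pos.mpr hu)
    nlinarith
  · intro p hpS
    rw [ev_add]
    exact hp p hpS

lemma opp_sign {d f g : ℝ} (h1 : 0 < f * (-d)) (h2 : 0 < d * g) : f * g < 0 := by
  rcases lt_trichotomy d 0 with hd | hd | hd
  · have hg : g < 0 := by
      by_contra hg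
      push Not at hg
      nlinarith [mul_nonneg hg (neg_nonneg.mpr hd.le)]
    have hf : 0 < f := by
      by_contra hf
      push Not at hf
      nlinarith [mul_nonneg (neg_nonneg.mpr hf) (neg_nonneg.mpr hd.le)]
    exact mul_neg_of_pos_of_neg hf hg
  · subst hd; simp at h2
  · have hg : 0 < g := by
      by_contra hg
      push Not at hg
      nlinarith [mul_nonneg (neg_nonneg.mpr hg) hd.le]
    have hf : f < 0 := by
      by_contra hf
      push Not at hf
      nlinarith [mul_nonneg hf hd.le]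
    exact mul_neg_of_neg_of_pos hf hg

/-- eight points listed, in general position in the sense of determinants -/
def GP (p : Fin 8 → E3) : Prop :=
  ∀ i j k l : Fin 8, i ≠ j → i ≠ k → i ≠ l → j ≠ k → j ≠ l → k ≠ l →
    D (p i) (p j) (p k) (p l) ≠ 0

/-- the sign vector -/
noncomputable def sg (f : Fin 4 → ℝ) (x : E3) : Bool := decide (0 < ev f x)

lemma sg_ne {f : Fin 4 → ℝ} {x y : E3} (h : ev f x * ev f y < 0) : sg f x ≠ sg f y := by
  intro he
  unfold sg at he
  by_cases h1 : 0 < ev f x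
  · by_cases h2 : 0 < ev f y
    · exact absurd h (not_lt.mpr (mul_pos h1 h2).le)
    · simp [h1, h2] at he
  · by_cases h2 : 0 < ev f y
    · simp [h1, h2] at he
    · push Not at h1 h2
      nlinarith [mul_nonneg_of_nonpos_of_nonpos h1 h2]

/-- balanced sign vectors -/
def bal (s : Fin 4 → Bool) : Prop := (Finset.univ.filter (fun i => s i = true)).card = 2

instance (s : Fin 4 → Bool) : Decidable (bal s) := by unfold bal; infer_instance

lemma step0 (p : Fin 8 → E3) (a₁ a₂ a₃ a₄ j k l m : Fin 8)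
    (h1 : D (p a₁) (p a₂) (p j) (p a₃) ≠ 0) (h2 : D (p a₁) (p a₂) (p j) (p a₄) ≠ 0)
    (h3 : D (p a₁) (p a₂) (p j) (p m) ≠ 0)
    (h4 : D (p a₁) (p a₂) (p j) (p k) * D (p a₁) (p a₂) (p j) (p l) < 0) :
    ∃ f : Fin 4 → ℝ,
      ev f (p a₁) * ev f (p a₃) < 0 ∧ ev f (p a₂) * ev f (p a₄) < 0 ∧
        ev f (p k) * ev f (p l) < 0 ∧ ev f (p j) * ev f (p m) < 0 := by
  have h5 : D (p a₁) (p a₂) (p j) (p k) ≠ 0 := by
    intro h; rw [h] at h4; simp at h4
  have h6 : D (p a₁) (p a₂) (p j) (p l) ≠ 0 := by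
    intro h; rw [h] at h4; simp at h4
  classical
  obtain ⟨f, f1, f2, f3, f4⟩ := key (p a₁) (p a₂) (p j) (p a₃) h1
    {p a₃, p a₄, p m, p k, p l} (by
      intro q hq
      simp only [Finset.mem_insert, Finset.mem_singleton] at hq
      rcases hq with rfl | rfl | rfl | rfl | rfl <;> assumption)
    (- D (p a₁) (p a₂) (p j) (p a₃)) (- D (p a₁) (p a₂) (p j) (p a₄))
    (- D (p a₁) (p a₂) (p j) (p m)) (neg_ne_zero.mpr h1) (neg_ne_zero.mpr h2)
    (neg_ne_zero.mpr h3)
  refine ⟨f, opp_sign f1 (f4 _ (by simp)), opp_sign f2 (f4 _ (by simp)), ?_,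
    opp_sign f3 (f4 _ (by simp))⟩
  have g1 := f4 (p k) (by simp)
  have g2 := f4 (p l) (by simp)
  have g3 := mul_pos g1 g2
  have g4 : D (p a₁) (p a₂) (p j) (p k) * ev f (p k) * (D (p a₁) (p a₂) (p j) (p l) * ev f (p l))
      = (D (p a₁) (p a₂) (p j) (p k) * D (p a₁) (p a₂) (p j) (p l)) *
        (ev f (p k) * ev f (p l)) := by ring
  rw [g4] at g3
  by_contra hc
  push Not at hc
  exact absurd g3 (not_lt.mpr (mul_nonpos_of_nonpos_of_nonneg h4.le hc))

/-- the main geometric step, for points `a₁ a₂ a₃ a₄` and `b₀ b₁ b₂ b₃` -/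
lemma step (p : Fin 8 → E3) (hp : GP p) (a₁ a₂ a₃ a₄ b₀ b₁ b₂ b₃ : Fin 8)
    (hd : [a₁, a₂, a₃, a₄, b₀, b₁, b₂, b₃].Nodup) :
    ∃ f : Fin 4 → ℝ,
      ev f (p a₁) * ev f (p a₃) < 0 ∧ ev f (p a₂) * ev f (p a₄) < 0 ∧
      ((ev f (p b₁) * ev f (p b₂) < 0 ∧ ev f (p b₀) * ev f (p b₃) < 0) ∨
       (ev f (p b₀) * ev f (p b₂) < 0 ∧ ev f (p b₁) * ev f (p b₃) < 0) ∨
       (ev f (p b₀) * ev f (p b₁) < 0 ∧ ev f (p b₂) * ev f (p b₃) < 0)) := by
  simp only [List.nodup_cons, List.mem_cons, List.not_mem_nil, or_false, not_or,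
    not_false_eq_true, List.nodup_nil, and_true] at hd
  obtain ⟨⟨h12, h13, h14, h1b0, h1b1, h1b2, h1b3⟩, ⟨h23, h24, h2b0, h2b1, h2b2, h2b3⟩,
    ⟨h34, h3b0, h3b1, h3b2, h3b3⟩, ⟨h4b0, h4b1, h4b2, h4b3⟩, ⟨hb01, hb02, hb03⟩,
    ⟨hb12, hb13⟩, hb23⟩ := hd
  set T : Fin 8 → Fin 8 → ℝ := fun i j => D (p a₁) (p a₂) (p i) (p j) with hT
  have n01 : T b₀ b₁ ≠ 0 := hp _ _ _ _ h12 h1b0 h1b1 h2b0 h2b1 hb01
  have n02 : T b₀ b₂ ≠ 0 := hp _ _ _ _ h12 h1b0 h1b2 h2b0 h2b2 hb02
  have n12 : T b₁ b₂ ≠ 0 := hp _ _ _ _ h12 h1b1 h1b2 h2b1 h2b2 hb12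
  have hanti : ∀ i j, T i j = - T j i := fun i j => D_anti _ _ _ _
  by_cases c0 : T b₀ b₁ * T b₀ b₂ < 0
  · obtain ⟨f, f1, f2, f3, f4⟩ := step0 p a₁ a₂ a₃ a₄ b₀ b₁ b₂ b₃
      (hp _ _ _ _ h12 h1b0 h13 h2b0 h23 (Ne.symm h3b0))
      (hp _ _ _ _ h12 h1b0 h14 h2b0 h24 (Ne.symm h4b0))
      (hp _ _ _ _ h12 h1b0 h1b3 h2b0 h2b3 hb03) c0
    exact ⟨f, f1, f2, Or.inl ⟨f3, f4⟩⟩
  · by_cases c1 : T b₁ b₀ * T b₁ b₂ < 0
    · obtain ⟨f, f1, f2, f3, f4⟩ := step0 p a₁ a₂ a₃ a₄ b₁ b₀ b₂ b₃
        (hp _ _ _ _ h12 h1b1 h13 h2b1 h23 (Ne.symm h3b1))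
        (hp _ _ _ _ h12 h1b1 h14 h2b1 h24 (Ne.symm h4b1))
        (hp _ _ _ _ h12 h1b1 h1b3 h2b1 h2b3 hb13) c1
      exact ⟨f, f1, f2, Or.inr (Or.inl ⟨f3, f4⟩)⟩
    · have c2 : T b₂ b₀ * T b₂ b₁ < 0 := by
        push Not at c0 c1
        have e0 : 0 < T b₀ b₁ * T b₀ b₂ := lt_of_le_of_ne c0 (Ne.symm (mul_ne_zero n01 n02))
        rw [hanti b₁ b₀] at c1
        have e1 : T b₀ b₁ * T b₁ b₂ < 0 := by
          have : T b₀ b₁ * T b₁ b₂ ≤ 0 := by linarith
          exact lt_of_le_of_ne this (mul_ne_zero n01 n12)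
        rw [hanti b₂ b₀, hanti b₂ b₁]
        by_contra hc
        push Not at hc
        have e2 : 0 < T b₀ b₁ * T b₀ b₁ := mul_self_pos.mpr n01
        have e3 : (T b₀ b₁ * T b₀ b₂) * (T b₀ b₁ * T b₁ b₂) < 0 := mul_neg_of_pos_of_neg e0 e1
        have e4 : (T b₀ b₁ * T b₀ b₂) * (T b₀ b₁ * T b₁ b₂) =
          (T b₀ b₁ * T b₀ b₁) * (- T b₀ b₂ * - T b₁ b₂) := by ring
        rw [e4] at e3
        exact absurd e3 (not_lt.mpr (mul_nonneg e2.le hc))
      obtain ⟨f, f1, f2, f3, f4⟩ := step0 p a₁ a₂ a₃ a₄ b₂ b₀ b₁ b₃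
        (hp _ _ _ _ h12 h1b2 h13 h2b2 h23 (Ne.symm h3b2))
        (hp _ _ _ _ h12 h1b2 h14 h2b2 h24 (Ne.symm h4b2))
        (hp _ _ _ _ h12 h1b2 h1b3 h2b2 h2b3 hb23) c2
      exact ⟨f, f1, f2, Or.inr (Or.inr ⟨f3, f4⟩)⟩

lemma bal_of_ne (s : Fin 4 → Bool) (i j k l : Fin 4) (hij : i ≠ j) (hik : i ≠ k) (hil : i ≠ l)
    (hjk : j ≠ k) (hjl : j ≠ l) (hkl : k ≠ l) (h1 : s i ≠ s j) (h2 : s k ≠ s l) : bal s := by
  revert s i j k l
  unfold bal
  decide +kernel

lemma ex_other (i j : Fin 4) (hij : i ≠ j) : ∃ k l : Fin 4, i ≠ k ∧ i ≠ l ∧ j ≠ k ∧ j ≠ l ∧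
    k ≠ l := by
  revert i j
  decide +kernel

lemma all_four (i j k l : Fin 4) (hij : i ≠ j) (hik : i ≠ k) (hil : i ≠ l)
    (hjk : j ≠ k) (hjl : j ≠ l) (hkl : k ≠ l) (m : Fin 4) : m = i ∨ m = j ∨ m = k ∨ m = l := by
  revert i j k l m
  decide +kernel

lemma bal_pair (s t : Fin 4 → Bool) (hs : bal s) (ht : bal t) :
    (∀ i j, i ≠ j → (s i, t i) ≠ (s j, t j)) ∨ (∀ i j, s i = s j ↔ t i = t j) := by
  revert s t
  unfold bal
  decide +kernel

lemma bal_eq (s : Fin 4 → Bool) (hs : bal s) : ∃ i j, i ≠ j ∧ s i = s j := by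
  revert s
  unfold bal
  decide +kernel

lemma halve (p : Fin 8 → E3) (hp : GP p) (A B : Fin 4 → Fin 8) (hA : Function.Injective A)
    (hB : Function.Injective B) (hAB : ∀ i j, A i ≠ B j) (i j : Fin 4) (hij : i ≠ j) :
    ∃ f : Fin 4 → ℝ, (∀ i, ev f (p (A i)) ≠ 0) ∧ (∀ i, ev f (p (B i)) ≠ 0) ∧
      bal (fun i => sg f (p (A i))) ∧ bal (fun i => sg f (p (B i))) ∧
      sg f (p (A i)) ≠ sg f (p (A j)) := by
  obtain ⟨k, l, hik, hil, hjk, hjl, hkl⟩ := ex_other i j hij
  have hd : [A i, A k, A j, A l, B 0, B 1, B 2, B 3].Nodup := by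
    simp [hA.eq_iff, hB.eq_iff, hAB, hij, hik, hil, hjl, hkl, Ne.symm hjk]
  obtain ⟨f, f1, f2, f3⟩ := step p hp _ _ _ _ _ _ _ _ hd
  have nz : ∀ x y : ℝ, x * y < 0 → x ≠ 0 ∧ y ≠ 0 := by
    intro x y h
    constructor
    · rintro rfl; simp at h
    · rintro rfl; simp at h
  have hall := all_four i j k l hij hik hil hjk hjl hkl
  refine ⟨f, ?_, ?_, ?_, ?_, sg_ne f1⟩
  · intro m
    rcases hall m with rfl | rfl | rfl | rfl
    · exact (nz _ _ f1).1
    · exact (nz _ _ f1).2
    · exact (nz _ _ f2).1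
    · exact (nz _ _ f2).2
  · intro m
    rcases f3 with ⟨g1, g2⟩ | ⟨g1, g2⟩ | ⟨g1, g2⟩ <;> fin_cases m <;>
    first
      | exact (nz _ _ g1).1
      | exact (nz _ _ g1).2
      | exact (nz _ _ g2).1
      | exact (nz _ _ g2).2
  · exact bal_of_ne _ i j k l hij hik hil hjk hjl hkl (sg_ne f1) (sg_ne f2)
  · rcases f3 with ⟨g1, g2⟩ | ⟨g1, g2⟩ | ⟨g1, g2⟩
    · exact bal_of_ne _ 1 2 0 3 (by decide) (by decide) (by decide) (by decide) (by decide)
        (by decide) (sg_ne g1) (sg_ne g2)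
    · exact bal_of_ne _ 0 2 1 3 (by decide) (by decide) (by decide) (by decide) (by decide)
        (by decide) (sg_ne g1) (sg_ne g2)
    · exact bal_of_ne _ 0 1 2 3 (by decide) (by decide) (by decide) (by decide) (by decide)
        (by decide) (sg_ne g1) (sg_ne g2)

lemma two_halvings (p : Fin 8 → E3) (hp : GP p) (A B : Fin 4 → Fin 8)
    (hA : Function.Injective A) (hB : Function.Injective B) (hAB : ∀ i j, A i ≠ B j) :
    ∃ f g : Fin 4 → ℝ, (∀ i, ev f (p (A i)) ≠ 0) ∧ (∀ i, ev f (p (B i)) ≠ 0) ∧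
      (∀ i, ev g (p (A i)) ≠ 0) ∧ (∀ i, ev g (p (B i)) ≠ 0) ∧
      (∀ i j, i ≠ j → (sg f (p (A i)), sg g (p (A i))) ≠ (sg f (p (A j)), sg g (p (A j)))) ∧
      (∀ i j, i ≠ j → (sg f (p (B i)), sg g (p (B i))) ≠ (sg f (p (B j)), sg g (p (B j)))) := by
  have HA := halve p hp A B hA hB hAB
  have HB := halve p hp B A hB hA (fun i j => Ne.symm (hAB j i))
  obtain ⟨f, f1, f2, f3, f4, -⟩ := HA 0 1 (by decide)
  obtain ⟨i, j, hij, eij⟩ := bal_eq _ f3
  obtain ⟨g, g1, g2, g3, g4, g5⟩ := HA i j hij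
  have hfgA : ∀ i j, i ≠ j →
      (sg f (p (A i)), sg g (p (A i))) ≠ (sg f (p (A j)), sg g (p (A j))) := by
    rcases bal_pair _ _ f3 g3 with h | h
    · exact h
    · exact absurd ((h i j).mp eij) g5
  rcases bal_pair _ _ f4 g4 with hfgB | hfgB
  · exact ⟨f, g, f1, f2, g1, g2, hfgA, hfgB⟩
  · obtain ⟨k, l, hkl, ekl⟩ := bal_eq _ f4
    obtain ⟨h, h2, h1, h4, h3, h5⟩ := HB k l hkl
    have hfhB : ∀ i j, i ≠ j →
        (sg f (p (B i)), sg h (p (B i))) ≠ (sg f (p (B j)), sg h (p (B j))) := by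
      rcases bal_pair _ _ f4 h4 with h' | h'
      · exact h'
      · exact absurd ((h' k l).mp ekl) h5
    have hghB : ∀ i j, i ≠ j →
        (sg g (p (B i)), sg h (p (B i))) ≠ (sg g (p (B j)), sg h (p (B j))) := by
      rcases bal_pair _ _ g4 h4 with h' | h'
      · exact h'
      · exact absurd ((h' k l).mp ((hfgB k l).mp ekl)) h5
    rcases bal_pair _ _ f3 h3 with h' | h'
    · exact ⟨f, h, f1, f2, h1, h2, h', hfhB⟩
    · refine ⟨g, h, g1, g2, h1, h2, ?_, hghB⟩
      rcases bal_pair _ _ g3 h3 with h'' | h''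
      · exact h''
      · exact absurd ((h'' i j).mpr ((h' i j).mp eij)) g5

/-- a generic direction -/
lemma exists_generic (V : Finset E3) (hV : ∀ v ∈ V, v ≠ 0) :
    ∃ n : E3, ∀ v ∈ V, (inner ℝ n v : ℝ) ≠ 0 := by
  classical
  let q : E3 → Polynomial ℝ := fun v =>
    Polynomial.C (v 0) + Polynomial.C (v 1) * Polynomial.X +
      Polynomial.C (v 2) * Polynomial.X ^ 2
  have hq : ∀ v ∈ V, q v ≠ 0 := by
    intro v hv h0
    apply hV v hv
    have c0 : v 0 = 0 := by
      have := congrArg (fun r : Polynomial ℝ => r.coeff 0) h0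
      simpa [q, Polynomial.coeff_C, Polynomial.coeff_X] using this
    have c1 : v 1 = 0 := by
      have := congrArg (fun r : Polynomial ℝ => r.coeff 1) h0
      simpa [q, Polynomial.coeff_C, Polynomial.coeff_X] using this
    have c2 : v 2 = 0 := by
      have := congrArg (fun r : Polynomial ℝ => r.coeff 2) h0
      simpa [q, Polynomial.coeff_C, Polynomial.coeff_X] using this
    ext i
    fin_cases i <;> simp [c0, c1, c2]
  have hfin : (⋃ v ∈ V, {t : ℝ | (q v).IsRoot t}).Finite := by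
    apply Set.Finite.biUnion V.finite_toSet
    intro v hv
    exact Polynomial.finite_setOfPred_isRoot (hq v hv)
  obtain ⟨t, ht⟩ := hfin.infinite_compl.nonempty
  refine ⟨!₂[1, t, t ^ 2], ?_⟩
  intro v hv h0
  apply ht
  simp only [Set.mem_iUnion]
  refine ⟨v, hv, ?_⟩
  show (q v).eval t = 0
  rw [inner_eq] at h0
  simp [q]
  simp at h0
  linarith

/-- the points listed along a generic direction -/
lemma exists_listing (P : Finset E3) (hcard : P.card = 8) :
    ∃ (n : E3) (p : Fin 8 → E3), (∀ i, p i ∈ P) ∧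
      StrictMono (fun i => (inner ℝ n (p i) : ℝ)) := by
  classical
  obtain ⟨n, hn⟩ := exists_generic (((P ×ˢ P).filter (fun r => r.1 ≠ r.2)).image
    (fun r => r.1 - r.2)) (by
      intro v hv
      simp only [Finset.mem_image, Finset.mem_filter] at hv
      obtain ⟨r, ⟨-, hr⟩, rfl⟩ := hv
      exact sub_ne_zero.mpr hr)
  have hinj : Set.InjOn (fun x : E3 => (inner ℝ n x : ℝ)) P := by
    intro x hx y hy hxy
    by_contra hne
    apply hn (x - y)
    · simp only [Finset.mem_image, Finset.mem_filter, Finset.mem_product]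
      exact ⟨(x, y), ⟨⟨hx, hy⟩, hne⟩, rfl⟩
    · rw [inner_sub_right]
      exact sub_eq_zero.mpr hxy
  have hc : (P.image (fun x : E3 => (inner ℝ n x : ℝ))).card = 8 := by
    rw [Finset.card_image_of_injOn hinj, hcard]
  have hpre : ∀ i : Fin 8, ∃ x ∈ P, (inner ℝ n x : ℝ) =
      (P.image (fun x : E3 => (inner ℝ n x : ℝ))).orderEmbOfFin hc i := by
    intro i
    have := Finset.orderEmbOfFin_mem (P.image (fun x : E3 => (inner ℝ n x : ℝ))) hc i
    rw [Finset.mem_image] at this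
    exact this
  choose p hp hp2 using hpre
  refine ⟨n, p, hp, ?_⟩
  intro i j hij
  show (inner ℝ n (p i) : ℝ) < inner ℝ n (p j)
  rw [hp2, hp2]
  exact (OrderEmbedding.lt_iff_lt _).mpr hij

/-- the first half of the indices -/
def IA : Fin 4 → Fin 8 := ![0, 1, 2, 3]
/-- the second half of the indices -/
def IB : Fin 4 → Fin 8 := ![4, 5, 6, 7]

lemma IA_inj : Function.Injective IA := by decide
lemma IB_inj : Function.Injective IB := by decide
lemma IA_ne_IB : ∀ i j, IA i ≠ IB j := by decide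
lemma IAB_cover : ∀ m : Fin 8, (∃ i, m = IA i) ∨ (∃ i, m = IB i) := by decide

/-- the core: three affine functions whose sign patterns separate the eight points -/
lemma core (P : Finset E3) (hcard : P.card = 8)
    (hP : ∀ n : E3, n ≠ 0 → ∀ c : ℝ, (P.filter (fun x => inner ℝ n x = c)).card ≤ 3) :
    ∃ F : Fin 3 → Fin 4 → ℝ, (∀ m, ∀ x ∈ P, ev (F m) x ≠ 0) ∧
      ∀ σ : Fin 3 → Bool, ∃! x, x ∈ P ∧ ∀ m, sg (F m) x = σ m := by
  classical
  obtain ⟨n, p, hpP, hmono⟩ := exists_listing P hcard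
  have hpinj : Function.Injective p := by
    intro i j hij
    apply hmono.injective
    simp only [hij]
  have hsurj : ∀ x ∈ P, ∃ i, p i = x := by
    intro x hx
    have himg : Finset.univ.image p = P := by
      apply Finset.eq_of_subset_of_card_le
      · intro y hy
        rw [Finset.mem_image] at hy
        obtain ⟨i, -, rfl⟩ := hy
        exact hpP i
      · rw [Finset.card_image_of_injective _ hpinj, hcard]
        simp
    rw [← himg, Finset.mem_image] at hx
    obtain ⟨i, -, h⟩ := hx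
    exact ⟨i, h⟩
  have hgp : GP p := by
    intro i j k l h1 h2 h3 h4 h5 h6
    exact D_ne P hP (hpP i) (hpP j) (hpP k) (hpP l) (hpinj.ne h1) (hpinj.ne h2) (hpinj.ne h3)
      (hpinj.ne h4) (hpinj.ne h5) (hpinj.ne h6)
  obtain ⟨f, g, f1, f2, g1, g2, hA, hB⟩ := two_halvings p hgp IA IB IA_inj IB_inj IA_ne_IB
  set c : ℝ := (inner ℝ n (p 3) + inner ℝ n (p 4)) / 2 with hc
  set e : Fin 4 → ℝ := ![- c, n 0, n 1, n 2] with he
  have hev : ∀ x, ev e x = inner ℝ n x - c := by
    intro x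
    rw [inner_eq]
    simp [ev, he]
    ring
  have h34 : (inner ℝ n (p 3) : ℝ) < inner ℝ n (p 4) := hmono (by decide)
  have hlow : ∀ i, ev e (p (IA i)) < 0 := by
    intro i
    have : (inner ℝ n (p (IA i)) : ℝ) ≤ inner ℝ n (p 3) :=
      hmono.monotone (by revert i; decide)
    rw [hev]
    linarith
  have hhigh : ∀ i, 0 < ev e (p (IB i)) := by
    intro i
    have : (inner ℝ n (p 4) : ℝ) ≤ inner ℝ n (p (IB i)) :=
      hmono.monotone (by revert i; decide)
    rw [hev]
    linarith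
  refine ⟨![e, f, g], ?_, ?_⟩
  · intro m x hx
    obtain ⟨i, rfl⟩ := hsurj x hx
    rcases IAB_cover i with ⟨j, rfl⟩ | ⟨j, rfl⟩
    · fin_cases m
      · exact (hlow j).ne
      · exact f1 j
      · exact g1 j
    · fin_cases m
      · exact (hhigh j).ne'
      · exact f2 j
      · exact g2 j
  · -- the sign map is injective, hence bijective
    have hsgA : ∀ i, sg e (p (IA i)) = false := by
      intro i
      unfold sg
      simp [not_lt.mpr (hlow i).le]
    have hsgB : ∀ i, sg e (p (IB i)) = true := by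
      intro i
      unfold sg
      simp [hhigh i]
    let S : Fin 8 → (Fin 3 → Bool) := fun i m => sg ((![e, f, g] : Fin 3 → Fin 4 → ℝ) m) (p i)
    have hSinj : Function.Injective S := by
      intro i j hij
      by_contra hne
      have k0 : sg e (p i) = sg e (p j) := congrFun hij 0
      have k1 : sg f (p i) = sg f (p j) := congrFun hij 1
      have k2 : sg g (p i) = sg g (p j) := congrFun hij 2
      rcases IAB_cover i with ⟨i', rfl⟩ | ⟨i', rfl⟩ <;>
        rcases IAB_cover j with ⟨j', rfl⟩ | ⟨j', rfl⟩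
      · exact hA i' j' (fun h => hne (congrArg IA h)) (by rw [k1, k2])
      · rw [hsgA, hsgB] at k0
        exact absurd k0 (by decide)
      · rw [hsgA, hsgB] at k0
        exact absurd k0 (by decide)
      · exact hB i' j' (fun h => hne (congrArg IB h)) (by rw [k1, k2])
    have hSbij : Function.Bijective S := by
      rw [Fintype.bijective_iff_injective_and_card]
      exact ⟨hSinj, by simp⟩
    intro σ
    obtain ⟨i, hi⟩ := hSbij.2 σ
    refine ⟨p i, ⟨hpP i, fun m => congrFun hi m⟩, ?_⟩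
    rintro y ⟨hy, hy2⟩
    obtain ⟨j, rfl⟩ := hsurj y hy
    have : S j = S i := by
      rw [hi]
      funext m
      exact hy2 m
    rw [hSinj this]

/-- The union of the three planes `{x | ⟪n i, x⟫ = c i}`. -/
def planes (n : Fin 3 → E3) (c : Fin 3 → ℝ) : Set E3 := ⋃ i, {x | (inner ℝ (n i) x : ℝ) = c i}

/-- The compartments: the connected components of the complement of the three planes. -/
def compartments (n : Fin 3 → E3) (c : Fin 3 → ℝ) : Set (Set E3) :=
  {C | ∃ y ∈ (planes n c)ᶜ, C = connectedComponentIn (planes n c)ᶜ y}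

lemma compartment_eq (n : Fin 3 → E3) (c : Fin 3 → ℝ) (y : E3) (hy : y ∈ (planes n c)ᶜ) :
    connectedComponentIn (planes n c)ᶜ y =
      {x | ∀ i, 0 < ((inner ℝ (n i) x : ℝ) - c i) * (inner ℝ (n i) y - c i)} := by
  have hy' : ∀ i, (inner ℝ (n i) y : ℝ) - c i ≠ 0 := by
    intro i h
    apply hy
    simp only [planes, Set.mem_iUnion]
    exact ⟨i, sub_eq_zero.mp h⟩
  apply Set.Subset.antisymm
  · intro x hx i
    have hpre : IsPreconnected (connectedComponentIn (planes n c)ᶜ y) :=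
      isPreconnected_connectedComponentIn
    have hcont : Continuous (fun x : E3 =>
        ((inner ℝ (n i) x : ℝ) - c i) * (inner ℝ (n i) y - c i)) := by fun_prop
    have hpi := (hpre.image _ hcont.continuousOn).ordConnected
    by_contra hneg
    push Not at hneg
    have hy0 : 0 < ((inner ℝ (n i) y : ℝ) - c i) * (inner ℝ (n i) y - c i) :=
      mul_self_pos.mpr (hy' i)
    have h0 := hpi.out ⟨x, hx, rfl⟩ ⟨y, mem_connectedComponentIn hy, rfl⟩
      (⟨hneg, hy0.le⟩ : (0 : ℝ) ∈ Set.Icc _ _)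
    obtain ⟨z, hz, hz0⟩ := h0
    have hzU := connectedComponentIn_subset _ _ hz
    apply hzU
    simp only [planes, Set.mem_iUnion]
    refine ⟨i, ?_⟩
    have : ((inner ℝ (n i) z : ℝ) - c i) * (inner ℝ (n i) y - c i) = 0 := hz0
    rcases mul_eq_zero.mp this with h | h
    · exact sub_eq_zero.mp h
    · exact absurd h (hy' i)
  · apply IsPreconnected.subset_connectedComponentIn
    · apply Convex.isPreconnected
      intro x hx z hz a b ha hb hab i
      have hx' := hx i
      have hz' := hz i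
      have e1 : ((inner ℝ (n i) (a • x + b • z) : ℝ) - c i) =
          a * ((inner ℝ (n i) x : ℝ) - c i) + b * ((inner ℝ (n i) z : ℝ) - c i) := by
        rw [inner_add_right, inner_smul_right, inner_smul_right]
        have : c i = (a + b) * c i := by rw [hab, one_mul]
        linarith
      rw [e1, add_mul, mul_assoc, mul_assoc]
      rcases ha.eq_or_lt with rfl | ha'
      · have : b = 1 := by linarith
        subst this
        simpa using hz'
      · have := mul_pos ha' hx'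
        have := mul_nonneg hb hz'.le
        linarith
    · intro i
      exact mul_self_pos.mpr (hy' i)
    · intro x hx
      simp only [planes, Set.mem_compl_iff, Set.mem_iUnion, not_exists]
      intro i hi
      have := hx i
      have hi' : (inner ℝ (n i) x : ℝ) - c i = 0 := sub_eq_zero.mpr hi
      rw [hi'] at this
      simp at this

/-- **Eight points in general position in space are separated by three planes.**
If every plane contains at most three of the eight points of `P`, there are three planes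
`{x | ⟪n i, x⟫ = c i}` containing no point of `P` such that each of the eight sign patterns is
attained by exactly one point of `P`; the complement of the three planes has exactly eight
connected components, and each contains exactly one point of `P`. -/
theorem result (P : Finset (EuclideanSpace ℝ (Fin 3))) (hcard : P.card = 8)
    (hP : ∀ n : EuclideanSpace ℝ (Fin 3), n ≠ 0 → ∀ c : ℝ,
      (P.filter (fun x => inner ℝ n x = c)).card ≤ 3) :
    ∃ (n : Fin 3 → EuclideanSpace ℝ (Fin 3)) (c : Fin 3 → ℝ),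
      (∀ i, n i ≠ 0) ∧ (∀ x ∈ P, x ∉ planes n c) ∧
      (∀ σ : Fin 3 → Bool, ∃! x, x ∈ P ∧ ∀ i, (σ i = true ↔ c i < inner ℝ (n i) x)) ∧
      (compartments n c).ncard = 8 ∧ ∀ C ∈ compartments n c, ∃! x, x ∈ P ∧ x ∈ C := by
  classical
  obtain ⟨F, hF0, hF⟩ := core P hcard hP
  have hin : ∀ i x, (inner ℝ (nv (F i)) x : ℝ) - (- F i 0) = ev (F i) x := by
    intro i x
    rw [inner_nv]; ring
  have hsg : ∀ i x, sg (F i) x = true ↔ - F i 0 < (inner ℝ (nv (F i)) x : ℝ) := by
    intro i x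
    unfold sg
    rw [decide_eq_true_iff, ← hin]
    exact sub_pos
  have hno : ∀ x ∈ P, x ∉ planes (fun i => nv (F i)) (fun i => - F i 0) := by
    intro x hx h
    simp only [planes, Set.mem_iUnion] at h
    obtain ⟨i, hi⟩ := h
    apply hF0 i x hx
    rw [← hin]
    exact sub_eq_zero.mpr hi
  have hsign : ∀ σ : Fin 3 → Bool, ∃! x, x ∈ P ∧
      ∀ i, (σ i = true ↔ - F i 0 < (inner ℝ (nv (F i)) x : ℝ)) := by
    intro σ
    obtain ⟨x, ⟨hx, hx2⟩, hx3⟩ := hF σ
    refine ⟨x, ⟨hx, fun i => ?_⟩, ?_⟩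
    · rw [← hsg, hx2]
    · rintro y ⟨hy, hy2⟩
      apply hx3
      refine ⟨hy, fun i => ?_⟩
      have := hy2 i
      rw [← hsg] at this
      cases h1 : σ i <;> cases h2 : sg (F i) y <;> simp_all
  have hcomp : ∀ y ∈ (planes (fun i => nv (F i)) (fun i => - F i 0))ᶜ, ∃! x, x ∈ P ∧
      x ∈ connectedComponentIn (planes (fun i => nv (F i)) (fun i => - F i 0))ᶜ y := by
    intro y hy
    have hy' : ∀ i, ev (F i) y ≠ 0 := by
      intro i h
      apply hy
      simp only [planes, Set.mem_iUnion]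
      refine ⟨i, ?_⟩
      rw [← hin] at h
      exact sub_eq_zero.mp h
    have hmem : ∀ x ∈ P, (x ∈ connectedComponentIn
        (planes (fun i => nv (F i)) (fun i => - F i 0))ᶜ y ↔ ∀ i, sg (F i) x = sg (F i) y) := by
      intro x hx
      rw [compartment_eq _ _ y hy]
      show (∀ i, 0 < ((inner ℝ (nv (F i)) x : ℝ) - (- F i 0)) *
        (inner ℝ (nv (F i)) y - (- F i 0))) ↔ _
      apply forall_congr'
      intro i
      rw [hin, hin]
      have hx0 := hF0 i x hx
      have hy0 := hy' i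
      constructor
      · intro h
        unfold sg
        rw [decide_eq_decide]
        constructor
        · intro h1
          by_contra h2
          exact absurd h (not_lt.mpr (mul_nonpos_of_nonneg_of_nonpos h1.le (not_lt.mp h2)))
        · intro h1
          by_contra h2
          exact absurd h (not_lt.mpr (mul_nonpos_of_nonpos_of_nonneg (not_lt.mp h2) h1.le))
      · intro h
        unfold sg at h
        rw [decide_eq_decide] at h
        by_cases h1 : 0 < ev (F i) x
        · exact mul_pos h1 (h.mp h1)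
        · have h2 : ¬ 0 < ev (F i) y := fun h' => h1 (h.mpr h')
          have h1' := lt_of_le_of_ne (not_lt.mp h1) hx0
          have h2' := lt_of_le_of_ne (not_lt.mp h2) hy0
          exact mul_pos_of_neg_of_neg h1' h2'
    obtain ⟨x, ⟨hx, hx2⟩, hx3⟩ := hF (fun i => sg (F i) y)
    refine ⟨x, ⟨hx, (hmem x hx).mpr hx2⟩, ?_⟩
    rintro z ⟨hz, hz2⟩
    exact hx3 z ⟨hz, (hmem z hz).mp hz2⟩
  refine ⟨fun i => nv (F i), fun i => - F i 0, ?_, hno, hsign, ?_, ?_⟩
  · intro i h0
    obtain ⟨x, ⟨hx, hx2⟩, -⟩ := hsign (fun _ => true)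
    obtain ⟨y, ⟨hy, hy2⟩, -⟩ := hsign (fun _ => false)
    have h1 : - F i 0 < (inner ℝ (nv (F i)) x : ℝ) := (hx2 i).mp rfl
    have h2 : ¬ - F i 0 < (inner ℝ (nv (F i)) y : ℝ) := by
      intro h
      exact absurd ((hy2 i).mpr h) (by simp)
    have h0' : nv (F i) = 0 := h0
    rw [h0', inner_zero_left] at h1 h2
    exact h2 h1
  · have himg : compartments (fun i => nv (F i)) (fun i => - F i 0) =
        (fun x => connectedComponentIn
          (planes (fun i => nv (F i)) (fun i => - F i 0))ᶜ x) '' (P : Set E3) := by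
      ext C
      constructor
      · rintro ⟨y, hy, rfl⟩
        obtain ⟨x, ⟨hx, hx2⟩, -⟩ := hcomp y hy
        exact ⟨x, hx, (connectedComponentIn_eq hx2).symm⟩
      · rintro ⟨x, hx, rfl⟩
        exact ⟨x, hno x hx, rfl⟩
    rw [himg, Set.InjOn.ncard_image, Set.ncard_coe_finset, hcard]
    intro x hx y hy hxy
    obtain ⟨z, -, hz⟩ := hcomp x (hno x hx)
    have e1 := hz x ⟨hx, mem_connectedComponentIn (hno x hx)⟩
    have e2 := hz y ⟨hy, by
      have : connectedComponentIn (planes (fun i => nv (F i)) (fun i => - F i 0))ᶜ x =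
        connectedComponentIn (planes (fun i => nv (F i)) (fun i => - F i 0))ᶜ y := hxy
      rw [this]
      exact mem_connectedComponentIn (hno y hy)⟩
    rw [e1, e2]
  · rintro C ⟨y, hy, rfl⟩
    exact hcomp y hy

end Pool.Agent.Results.MP_a0a64f_co.EightPointsSeparated
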